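import Pool.Agent.helper91.RB.Spec1

/-!
# MP_24e2e7_nt: row rb:DUA (the dual ideal)
-/

set_option autoImplicit false

namespace Pool.Agent.RB

open NumberField NumberField.InfinitePlace NumberField.Units NumberField.Units.dirichletUnitTheorem
open MeasureTheory Filter Topology Module
open scoped nonZeroDivisors Real Classical

theorem DUA : DUA_stmt := by
  intro K _ _ J hJ
  have e1 : du K J = du K 1 * J⁻¹ := FractionalIdeal.dual_eq_mul_inv ℤ ℚ J
  refine ⟨FractionalIdeal.dual_ne_zero ℤ ℚ hJ, FractionalIdeal.dual_dual ℤ ℚ J, e1, ?_⟩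
  have e2 : ((differentIdeal ℤ (𝓞 K) : Ideal (𝓞 K)) : FI K) = (du K 1)⁻¹ :=
    coeIdeal_differentIdeal ℤ ℚ K (𝓞 K)
  have e3 : FractionalIdeal.absNorm ((differentIdeal ℤ (𝓞 K) : Ideal (𝓞 K)) : FI K) =
      ((discr K).natAbs : ℚ) := by
    rw [FractionalIdeal.coeIdeal_absNorm, absNorm_differentIdeal K (𝓞 K)]
  have h0 : discr K ≠ 0 := discr_ne_zero K
  have e4 : FractionalIdeal.absNorm (du K 1) = ((discr K).natAbs : ℚ)⁻¹ := by
    rw [← e3, e2, map_inv₀, inv_inv]
  have hJ0 : FractionalIdeal.absNorm J ≠ 0 := by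
    rw [Ne, FractionalIdeal.absNorm_eq_zero_iff]
    exact hJ
  have e5 : FractionalIdeal.absNorm (du K J) * (FractionalIdeal.absNorm J *
      ((discr K).natAbs : ℚ)) = 1 := by
    have hd : ((discr K).natAbs : ℚ) ≠ 0 := by
      exact_mod_cast Int.natAbs_ne_zero.2 h0
    rw [e1, map_mul, e4, map_inv₀]
    field_simp
  have e6 : |(discr K : ℝ)| = (((discr K).natAbs : ℚ) : ℝ) := by
    rw [Rat.cast_natCast, Nat.cast_natAbs, Int.cast_abs]
  rw [e6]
  exact_mod_cast e5

end Pool.Agent.RB
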