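import Pool.Agent.helper91.RB.Spec6

/-!
Row rb:MNK.
-/

set_option autoImplicit false

namespace Pool.Agent.RB

open NumberField IsDedekindDomain Module
open scoped nonZeroDivisors Real Classical IsMulCommutative

theorem MNK_surj (F : Type) [Field F] [NumberField F] (h : finrank ℚ F = 1) :
    Function.Surjective (algebraMap ℤ (𝓞 F)) := by
  intro x
  obtain ⟨q, hq⟩ := (Algebra.finrank_eq_one_iff_bijective_algebraMap.mp h).2 (x : F)
  have hi : IsIntegral ℤ q := by
    rw [← isIntegral_algebraMap_iff (B := F) (algebraMap ℚ F).injective, hq]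
    exact x.2
  obtain ⟨z, hz⟩ := IsIntegrallyClosed.isIntegral_iff.1 hi
  refine ⟨z, ?_⟩
  apply RingOfIntegers.ext
  rw [← hq, ← hz]
  simp

theorem MNK : MNK_stmt := by
  intro F H _ _ _ _ _ _ _ hP
  by_contra hlt
  have h0 : 0 < finrank ℚ F := finrank_pos
  have h1 : finrank ℚ F = 1 := by omega
  have hH : finrank ℚ H ≠ 1 := by
    intro h
    have h2 := finrank_mul_finrank ℚ (maximalRealSubfield H) H
    rw [Algebra.IsQuadraticExtension.finrank_eq_two (maximalRealSubfield H) H, h] at h2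
    omega
  obtain ⟨P, hPm, hPu⟩ := NumberField.exists_not_isUnramifiedAt_int (𝒪 := 𝓞 H) hH
  have hne : P ≠ ⊥ := Ideal.IsMaximal.ne_bot_of_isIntegral_int P
  have h3 := hP ⟨P, hPm.isPrime, hne⟩
  apply hPu
  have h4 : Algebra.FormallyUnramified ℤ (𝓞 F) :=
    Algebra.FormallyUnramified.of_surjective (IsScalarTower.toAlgHom ℤ ℤ (𝓞 F)) (MNK_surj F h1)
  have h5 : Algebra.FormallyUnramified (𝓞 F) (Localization.AtPrime P) := h3
  exact Algebra.FormallyUnramified.comp ℤ (𝓞 F) (Localization.AtPrime P)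

end Pool.Agent.RB
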